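import Pool.Agent.R396.WJ.Irr

set_option autoImplicit false

/-!
# A counterexample to the conjecture on the weights of the generators

`S15` is the Gram matrix of the sublattice `x₁ = x₂` (the orthogonal complement of a root) of the
even unimodular lattice `D₁₆⁺`; it is irreducible of rank 15 and determinant 2.  It has no nonzero
weak Jacobi form of weight 0 and index one, so no homogeneous basis contains an element of
weight 0.
-/

namespace Pool.Agent.Results.MP_c5c797_nt.NoWeightZero

open UpperHalfPlane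
open Pool.Agent.R396.WJ

theorem result :
    ∃ S : Matrix (Fin 15) (Fin 15) ℤ, IsEvenPosDef S ∧ IsIrreducible S ∧ S.det ≠ 1 ∧
      (∀ φ : ℍ → (Fin 15 → ℂ) → ℂ, IsWeakJacobiForm S 0 φ → ∀ τ z, φ τ z = 0) ∧
      ∀ (ι : Type) (k : ι → ℤ) (φ : ι → ℍ → (Fin 15 → ℂ) → ℂ),
        IsHomogeneousBasis S k φ → ∀ i, k i ≠ 0 := by
  have hv : ∀ φ : ℍ → (Fin 15 → ℂ) → ℂ, IsWeakJacobiForm S15 0 φ → ∀ τ z, φ τ z = 0 :=
    fun _ h => vanish h
  exact ⟨S15, S15_posdef, S15_irreducible, S15_det, hv, fun _ _ _ hb i => basis_ne hv hb i⟩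

end Pool.Agent.Results.MP_c5c797_nt.NoWeightZero
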